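import Pool.Agent.Helper33.HU.Goals

/-!
Packet HU-LIN: linear algebra of a filtration by cyclic modules.
-/

set_option autoImplicit false

namespace Pool.Agent.Helper23.HU

open Pool.Agent.Helper33.HU

theorem lift_basis {A : Type} [CommRing A] [Algebra ℂ A] (J : Ideal A)
    (hJ : Module.Finite ℂ (A ⧸ J)) :
    ∃ t : Fin (Module.finrank ℂ (A ⧸ J)) → A,
      ∀ f : A, ∃ g ∈ Submodule.span ℂ (Set.range t), f - g ∈ J := by
  have hJ' := hJ
  let b := Module.finBasis ℂ (A ⧸ J)
  have hs : ∀ i, ∃ a : A, Ideal.Quotient.mk J a = b i := fun i =>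
    Ideal.Quotient.mk_surjective (b i)
  choose t ht using hs
  refine ⟨t, fun f => ?_⟩
  refine ⟨∑ i, (b.repr (Ideal.Quotient.mk J f) i) • t i, ?_, ?_⟩
  · exact Submodule.sum_mem _ fun i _ =>
      Submodule.smul_mem _ _ (Submodule.subset_span ⟨i, rfl⟩)
  · rw [← Ideal.Quotient.eq]
    have h1 : Ideal.Quotient.mk J (∑ i, (b.repr (Ideal.Quotient.mk J f) i) • t i)
        = ∑ i, (b.repr (Ideal.Quotient.mk J f) i) • b i := by
      rw [map_sum]
      refine Finset.sum_congr rfl fun i _ => ?_
      rw [← ht i]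
      exact map_smul (Ideal.Quotient.mkₐ ℂ J) _ _
    rw [h1]
    exact (b.sum_repr _).symm

theorem gLIN : G_LIN := by
  classical
  intro A M ι _ _ _ _ _ _ m Φ J c s hspan hJm hJ hc
  -- outside of `s` the unit is in `J i`
  have hone : ∀ i, i ∉ s → (1 : A) ∈ J i := by
    intro i hi
    obtain ⟨h1, h2⟩ := hJ i
    rw [hc i hi] at h2
    have h3 := h1
    have h4 : Subsingleton (A ⧸ J i) := Module.finrank_zero_iff.1 (Nat.le_zero.1 h2)
    have h5 : Ideal.Quotient.mk (J i) 1 = 0 := Subsingleton.elim _ _
    exact Ideal.Quotient.eq_zero_iff_mem.1 h5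
  -- lower spans
  have hlow : ∀ t : ℕ, Submodule.span A {w | ∃ b, Φ b < t ∧ w = m b}
      ≤ Submodule.span A {w | ∃ b, b ∈ s ∧ Φ b < t ∧ w = m b} := by
    intro t
    induction t using Nat.strong_induction_on with
    | _ t ih =>
      refine Submodule.span_le.2 ?_
      rintro w ⟨b, hb, rfl⟩
      by_cases hbs : b ∈ s
      · exact Submodule.subset_span ⟨b, hbs, hb, rfl⟩
      · have h1 := hJm b 1 (hone b hbs)
        rw [one_smul] at h1
        have h2 := ih (Φ b) hb h1
        refine Submodule.span_mono ?_ h2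
        rintro w ⟨b', hb', h3, rfl⟩
        exact ⟨b', hb', h3.trans hb, rfl⟩
  have htop : Submodule.span A (m '' (s : Set ι)) = ⊤ := by
    rw [eq_top_iff, ← hspan]
    refine Submodule.span_le.2 ?_
    rintro w ⟨b, rfl⟩
    have h1 : m b ∈ Submodule.span A {w | ∃ b', Φ b' < Φ b + 1 ∧ w = m b'} :=
      Submodule.subset_span ⟨b, Nat.lt_succ_self _, rfl⟩
    have h2 := hlow (Φ b + 1) h1
    refine Submodule.span_mono ?_ h2
    rintro w ⟨b', hb', -, rfl⟩
    exact ⟨b', hb', rfl⟩
  -- the induction
  have key : ∀ u : Finset ι, (∀ b ∈ u, ∀ b' ∈ s, Φ b' < Φ b → b' ∈ u) →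
      ∃ T : Finset M, T.card ≤ ∑ i ∈ u, c i ∧
        ∀ x ∈ Submodule.span A (m '' (u : Set ι)), x ∈ Submodule.span ℂ (T : Set M) := by
    intro u
    induction u using Finset.induction_on_max_value Φ with
    | empty =>
      intro _
      refine ⟨∅, by simp, fun x hx => ?_⟩
      rw [Finset.coe_empty, Set.image_empty, Submodule.span_empty] at hx
      rw [(Submodule.mem_bot A).1 hx]
      exact Submodule.zero_mem _
    | insert a s' ha hmax ih =>
      intro hlw
      have hlw' : ∀ b ∈ s', ∀ b' ∈ s, Φ b' < Φ b → b' ∈ s' := by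
        intro b hb b' hb' hlt
        have h1 := hlw b (Finset.mem_insert_of_mem hb) b' hb' hlt
        rcases Finset.mem_insert.1 h1 with h2 | h2
        · subst h2
          exact absurd (hmax b hb) (not_le.2 hlt)
        · exact h2
      obtain ⟨T, hT, hTs⟩ := ih hlw'
      obtain ⟨h1, h2⟩ := hJ a
      obtain ⟨t, ht⟩ := lift_basis (J a) h1
      refine ⟨T ∪ Finset.univ.image (fun j => t j • m a), ?_, ?_⟩
      · rw [Finset.sum_insert ha]
        calc (T ∪ Finset.univ.image (fun j => t j • m a)).card
            ≤ T.card + (Finset.univ.image (fun j => t j • m a)).card := Finset.card_union_le _ _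
          _ ≤ ∑ i ∈ s', c i + Module.finrank ℂ (A ⧸ J a) := by
              refine Nat.add_le_add hT ?_
              refine Finset.card_image_le.trans ?_
              rw [Finset.card_univ, Fintype.card_fin]
          _ ≤ c a + ∑ i ∈ s', c i := by omega
      · intro x hx
        rw [Finset.coe_insert, Set.image_insert_eq] at hx
        obtain ⟨f, y, hy, rfl⟩ := Submodule.mem_span_insert.1 hx
        obtain ⟨g, hg, hfg⟩ := ht f
        have h3 : (f - g) • m a ∈ Submodule.span A (m '' (s' : Set ι)) := by
          have h4 := hlow _ (hJm a (f - g) hfg)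
          refine Submodule.span_mono ?_ h4
          rintro w ⟨b, hb, hlt, rfl⟩
          have h5 := hlw a (Finset.mem_insert_self _ _) b hb hlt
          rcases Finset.mem_insert.1 h5 with h6 | h6
          · subst h6
            exact absurd hlt (lt_irrefl _)
          · exact ⟨b, h6, rfl⟩
        have h7 : (f - g) • m a + y ∈ Submodule.span ℂ (T : Set M) :=
          hTs _ (Submodule.add_mem _ h3 hy)
        have h8 : g • m a ∈ Submodule.span ℂ
            ((Finset.univ.image (fun j => t j • m a) : Finset M) : Set M) := by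
          let L : A →ₗ[ℂ] M := (LinearMap.toSpanSingleton A M (m a)).restrictScalars ℂ
          have h9 : L g ∈ (Submodule.span ℂ (Set.range t)).map L :=
            Submodule.mem_map_of_mem hg
          rw [Submodule.map_span] at h9
          refine Submodule.span_mono ?_ h9
          rintro w ⟨_, ⟨j, rfl⟩, rfl⟩
          exact Finset.mem_coe.2 (Finset.mem_image.2 ⟨j, Finset.mem_univ _, rfl⟩)
        have e : f • m a + y = g • m a + ((f - g) • m a + y) := by
          rw [sub_smul]; abel
        rw [e, Finset.coe_union, Submodule.span_union]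
        exact Submodule.add_mem_sup h8 h7 |> fun h => by rwa [sup_comm] at h
  obtain ⟨T, hT, hTs⟩ := key s (fun _ _ b' hb' _ => hb')
  have hTt : Submodule.span ℂ (T : Set M) = ⊤ := by
    rw [eq_top_iff]
    intro x _
    exact hTs x (by rw [htop]; exact Submodule.mem_top)
  refine ⟨Module.finite_def.2 ⟨T, hTt⟩, ?_⟩
  have h1 := finrank_span_finset_le_card (R := ℂ) T
  rw [Set.finrank, hTt, finrank_top] at h1
  exact h1.trans hT

end Pool.Agent.Helper23.HU
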